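import Mathlib
import Pool.Agent.Lib.MP_0a7691_co.Join

/-!
Hamilton cycles need not span the cycle space, whatever the connectivity and however large the
order is compared with the independence number.
-/

namespace Pool.Agent.Results.MP_0a7691_co.JoinOfCliques

open SimpleGraph

/-- `G` has more than `k` vertices, and stays connected after deleting fewer than `k` of them -/
def KConnected {V : Type*} [Fintype V] (k : ℕ) (G : SimpleGraph V) : Prop :=
  k < Fintype.card V ∧
    ∀ S : Finset V, S.card < k → (G.induce {v | v ∉ S}).Connected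

/-- the indicator vector, in the space of functions from the edges of `G` to the field with two
elements, of the edge set of the closed walk `p` -/
noncomputable def edgeVec {V : Type*} {G : SimpleGraph V} {u : V} (p : G.Walk u u) :
    G.edgeSet → ZMod 2 :=
  Set.indicator {e : G.edgeSet | e.1 ∈ p.edges} 1

/-- the cycle space: the span of the edge sets of all cycles -/
def cycleSpace {V : Type*} (G : SimpleGraph V) : Submodule (ZMod 2) (G.edgeSet → ZMod 2) :=
  Submodule.span (ZMod 2) {x | ∃ (u : V) (p : G.Walk u u), p.IsCycle ∧ x = edgeVec p}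

/-- the span of the edge sets of all cycles of length `m` -/
def cycleSpaceOfLength {V : Type*} (G : SimpleGraph V) (m : ℕ) :
    Submodule (ZMod 2) (G.edgeSet → ZMod 2) :=
  Submodule.span (ZMod 2)
    {x | ∃ (u : V) (p : G.Walk u u), p.IsCycle ∧ p.length = m ∧ x = edgeVec p}

theorem result (k a n : ℕ) (ha : 2 ≤ a) (hk : k ≤ a) (hn : 2 * a ≤ n) :
    ∃ G : SimpleGraph (Fin n), KConnected k G ∧
      (∃ (u : Fin n) (p : G.Walk u u), p.IsCycle ∧ p.length = n) ∧
      G.indepNum = a ∧ cycleSpaceOfLength G n ≠ cycleSpace G := by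
  classical
  obtain ⟨N, rfl⟩ : ∃ N, n = N + 3 := ⟨n - 3, by omega⟩
  refine ⟨Lib.MP_0a7691_co.Join.joinGraph (N + 3) a, ⟨by simp; omega, fun S hS => ?_⟩, ?_,
    Lib.MP_0a7691_co.Join.indepNum_eq _ _ (by omega) hn, fun hspan => ?_⟩
  · exact Lib.MP_0a7691_co.Join.connected_compl (N + 3) a hn S (by omega)
  · obtain ⟨u, p, hp⟩ := Lib.MP_0a7691_co.Join.hamiltonian N a (by omega) (by simp)
    exact ⟨u, p, hp.isCycle, by simpa using hp.length_eq⟩
  let x : Fin (N + 3) := ⟨0, by omega⟩
  let y : Fin (N + 3) := ⟨2, by omega⟩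
  let z : Fin (N + 3) := ⟨1, by omega⟩
  have hxy : x ≠ y := fun h => by
    have := congrArg Fin.val h
    simp only [x, y] at this
    omega
  have hyz : y ≠ z := fun h => by
    have := congrArg Fin.val h
    simp only [y, z] at this
    omega
  have hzx : z ≠ x := fun h => by
    have := congrArg Fin.val h
    simp only [x, z] at this
    omega
  have hx : x.val % 2 = 0 ∧ x.val < 2 * a := ⟨rfl, by show 0 < 2 * a; omega⟩
  have hy : y.val % 2 = 0 ∧ y.val < 2 * a := ⟨Nat.mod_self 2, by show 2 < 2 * a; omega⟩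
  have h1 : (Lib.MP_0a7691_co.Join.joinGraph (N + 3) a).Adj x y :=
    Lib.MP_0a7691_co.Join.join_adj.2 ⟨hxy, Or.inl hx⟩
  have h2 : (Lib.MP_0a7691_co.Join.joinGraph (N + 3) a).Adj y z :=
    Lib.MP_0a7691_co.Join.join_adj.2 ⟨hyz, Or.inl hy⟩
  have h3 : (Lib.MP_0a7691_co.Join.joinGraph (N + 3) a).Adj z x :=
    Lib.MP_0a7691_co.Join.join_adj.2 ⟨hzx, Or.inr (Or.inl hx)⟩
  let t : (Lib.MP_0a7691_co.Join.joinGraph (N + 3) a).Walk x x :=
    .cons h1 (.cons h2 (.cons h3 .nil))
  have ht : t.IsCycle := by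
    simp only [t, SimpleGraph.Walk.cons_isCycle_iff, SimpleGraph.Walk.cons_isPath_iff]
    simp [hxy, hyz, hzx, hxy.symm, hzx.symm]
  let e : (Lib.MP_0a7691_co.Join.joinGraph (N + 3) a).edgeSet := ⟨s(x, y), h1⟩
  have hle : cycleSpaceOfLength (Lib.MP_0a7691_co.Join.joinGraph (N + 3) a) (N + 3) ≤
      LinearMap.ker (LinearMap.proj (R := ZMod 2)
        (φ := fun _ : (Lib.MP_0a7691_co.Join.joinGraph (N + 3) a).edgeSet => ZMod 2) e) := by
    refine Submodule.span_le.2 ?_
    rintro _ ⟨u, p, hp, hl, rfl⟩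
    have hH : p.IsHamiltonianCycle :=
      Walk.isHamiltonianCycle_iff_isCycle_and_length_eq.2 ⟨hp, by simpa using hl⟩
    have := Lib.MP_0a7691_co.Join.no_hub_edge (N + 3) a (by omega) hn p hH x y hx hy
    simp [edgeVec, e, this]
  rw [hspan] at hle
  have hmem := hle (Submodule.subset_span ⟨x, t, ht, rfl⟩)
  simp [t, edgeVec, e] at hmem

end Pool.Agent.Results.MP_0a7691_co.JoinOfCliques
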