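import Mathlib
import Pool.Agent.Lib.MP_0a7691_co.CE.Walks

/-!
A Chvatal-Erdos condition for the cycle space: on an odd number of vertices, connectivity at least
three times the independence number plus three makes the Hamilton cycles span the cycle space.
-/

namespace Pool.Agent.Results.MP_0a7691_co.LinearConnectivity

open SimpleGraph

/-- `G` has more than `k` vertices, and stays connected after deleting fewer than `k` of them -/
def KConnected {V : Type*} [Fintype V] (k : ℕ) (G : SimpleGraph V) : Prop :=
  k < Fintype.card V ∧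
    ∀ S : Finset V, S.card < k → (G.induce {v | v ∉ S}).Connected

/-- the indicator vector, in the space of functions from the edges of `G` to the field with two
elements, of the edge set of the closed walk `p` -/
noncomputable def edgeVec {V : Type*} {G : SimpleGraph V} {u : V} (p : G.Walk u u) :
    G.edgeSet → ZMod 2 :=
  Set.indicator {e : G.edgeSet | e.1 ∈ p.edges} 1

/-- the cycle space: the span of the edge sets of all cycles -/
def cycleSpace {V : Type*} (G : SimpleGraph V) : Submodule (ZMod 2) (G.edgeSet → ZMod 2) :=
  Submodule.span (ZMod 2) {x | ∃ (u : V) (p : G.Walk u u), p.IsCycle ∧ x = edgeVec p}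

/-- the span of the edge sets of all cycles of length `m` -/
def cycleSpaceOfLength {V : Type*} (G : SimpleGraph V) (m : ℕ) :
    Submodule (ZMod 2) (G.edgeSet → ZMod 2) :=
  Submodule.span (ZMod 2)
    {x | ∃ (u : V) (p : G.Walk u u), p.IsCycle ∧ p.length = m ∧ x = edgeVec p}

theorem result {V : Type*} [Fintype V] (G : SimpleGraph V) (k : ℕ)
    (hodd : Odd (Fintype.card V)) (hk : KConnected k G) (h3 : 3 * G.indepNum + 3 ≤ k) :
    cycleSpaceOfLength G (Fintype.card V) = cycleSpace G := by
  classical
  refine le_antisymm (Submodule.span_mono ?_) (Submodule.span_le.2 ?_)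
  · rintro _ ⟨u, p, hp, -, rfl⟩
    exact ⟨u, p, hp, rfl⟩
  rintro _ ⟨u, p, hp, rfl⟩
  by_contra hx
  obtain ⟨f, hf, hle⟩ := Submodule.exists_le_ker_of_notMem hx
  have key : ∀ (v : V) (q : G.Walk v v), q.IsCycle → f (edgeVec q) = _ := fun v q hq =>
    Lib.MP_0a7691_co.CE.functional_indicator f q.edges hq.isCircuit.isTrail.edges_nodup
      fun e he => q.edges_subset_edgeSet he
  refine hf ?_
  rw [key u p hp]
  refine Lib.MP_0a7691_co.CE.walks_zero _ hodd
    (Lib.MP_0a7691_co.CE.kc_of_connected hk.1 hk.2) h3 (fun v q hq hl => ?_) u p hp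
  rw [← key v q hq]
  exact hle (Submodule.subset_span ⟨v, q, hq, hl, rfl⟩)

end Pool.Agent.Results.MP_0a7691_co.LinearConnectivity
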